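import Pool.Agent.H.MP_072fb1_ag.Main

/-!
Generalised Kummer fourfolds of an abelian surface and of its dual.

`L = ℤ⁴ = H₁(A, ℤ)`, `X = Kum₂(A)`, `Y = Kum₂(A^)`, `NS(A) = ℤh`, `h` of type `(1, d)`; the period of
`A` is `σ`, the period of the dual surface is `dualV σ`. The lattices `H²(X, ℤ)`, `H²(Y, ℤ)` are
Hodge isometric. A datum `(S, κ, M)` with `OddKTheory κ M` is what the odd topological K-theory of a
generalised Kummer fourfold carries: the spin representation `S = H^odd` of the LLV algebra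
`so(H̃)`, the lattice `M` of `K¹` modulo torsion, the monodromy of the family of all complex 2-tori,
and Poincaré duality. A derived equivalence of `X` and `Y` would give `KIsomorphic κ M σ (dualV σ)`
(Taelman). For `3 ∣ d` there is no such isomorphism, whatever the datum; for `3 ∤ d` there is one,
for some datum.
-/

namespace Pool.Agent.Results.MP_072fb1_ag.DualKummerFourfolds

open Pool.Agent.H.MP_072fb1_ag

theorem result :
    (∀ d : ℕ, 0 < d → ∃ σ : Fin 6 → ℂ, IsPeriod σ ∧ NeronSeveri σ d) ∧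
    (∀ (d : ℕ) (σ : Fin 6 → ℂ), 0 < d → IsPeriod σ → NeronSeveri σ d →
      IsPeriod (dualV σ) ∧ HodgeIsometric σ (dualV σ) ∧
      (3 ∣ d → ∀ (S : Type) [AddCommGroup S] [Module ℚ S] (κ : Ht ℚ → Ht ℚ → S → S)
        (M : Submodule ℤ S), OddKTheory κ M → ¬ KIsomorphic κ M σ (dualV σ))) ∧
    (∃ (κ : Ht ℚ → Ht ℚ → Matrix (Fin 4) (Fin 2) ℚ × Matrix (Fin 4) (Fin 2) ℚ →
          Matrix (Fin 4) (Fin 2) ℚ × Matrix (Fin 4) (Fin 2) ℚ)
        (M : Submodule ℤ (Matrix (Fin 4) (Fin 2) ℚ × Matrix (Fin 4) (Fin 2) ℚ)), OddKTheory κ M ∧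
      ∀ (d : ℕ) (σ : Fin 6 → ℂ), 0 < d → IsPeriod σ → NeronSeveri σ d →
        (KIsomorphic κ M σ (dualV σ) ↔ ¬ 3 ∣ d)) :=
  main

end Pool.Agent.Results.MP_072fb1_ag.DualKummerFourfolds
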