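import Pool.Agent.H.MP_072fb1_ag.K3.Trans

/-!
Manifolds of K3^[n]-type, `n = N + 1 ≥ 4`.

`H² = U₁ ⊕ U₂ ⊕ U₃ ⊕ E₈(-1)² ⊕ ℤδ`, `(δ, δ) = -2N`, `δ* = δ/2N`, is the Beauville-Bogomolov lattice,
`Λ = U₀ ⊕ H²` the extended Mukai lattice, twisted by `exp(δ/2)`. A datum `(V, κ, M)` with `K3Datum N κ M`
is what the topological K-theory of such a manifold carries: the LLV action `κ` of `so(Λ)` on the
rational cohomology `V`, the lattice `M = exp(δ/2) v(K_top)`, automorphisms of `M` over the Eichler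
transvections of `Λ`, and the Mukai lattice `H⁴/Sym² H²`. A derived equivalence of manifolds `X`, `Y`
with periods `s`, `s'` gives `KIsomorphic N κ M s s'` (Taelman, Beckmann).

The four parts: an isometry of `Λ` which lifts to an automorphism of `M` acts by `±1` on `Λ*/Λ`; if all
Hodge isometries of the transcendental space of `X` are `±1`, then a Hodge isometry
`γ : H²(X, ℤ) → H²(Y, ℤ)` of derived equivalent `X`, `Y` is `±1` on `2kδ*` whenever `2kδ*` is
transcendental modulo `H²`; for `k = 1` this is sharp for some datum; for `N = q q'`, `q, q' > 2`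
coprime, there are `X`, `Y` with Hodge isometric `H²` for which it fails, for every datum.
-/

namespace Pool.Agent.Results.MP_072fb1_ag.K3nType

open Pool.Agent.H.MP_072fb1_ag.K3

theorem result :
    (∀ (N : ℕ) (V : Type) [AddCommGroup V] [Module ℚ V] (κ : LV ℚ → LV ℚ → V → V)
      (M : Submodule ℤ V) (ψ : LV ℚ → LV ℚ) (g : V ≃ₗ[ℚ] V), 0 < N → K3Datum N κ M →
      IsoL N ψ → Preserves M g → Lifts κ ψ g →
      IntL (ψ (0, dst N) - (0, dst N)) ∨ IntL (ψ (0, dst N) + (0, dst N))) ∧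
    (∀ (N : ℕ) (V : Type) [AddCommGroup V] [Module ℚ V] (κ : LV ℚ → LV ℚ → V → V)
      (M : Submodule ℤ V) (s s' : HV ℂ) (γ : HV ℚ → HV ℚ), 0 < N → K3Datum N κ M →
      OnlySigns N s → HodgeIsometry N s s' γ → KIsomorphic N κ M s s' →
      ∀ (k : ℤ) (t : HV ℚ), InT N s t → IntH (t - (2 * k : ℚ) • dst N) →
        IntH ((2 * k : ℚ) • (γ (dst N) - dst N)) ∨ IntH ((2 * k : ℚ) • (γ (dst N) + dst N))) ∧
    (∀ N : ℕ, 0 < N → ∃ (V : Type) (_ : AddCommGroup V) (_ : Module ℚ V)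
      (κ : LV ℚ → LV ℚ → V → V) (M : Submodule ℤ V), K3Datum N κ M ∧
      ∀ (s s' : HV ℂ) (γ : HV ℚ → HV ℚ), HodgeIsometry N s s' γ →
        (IntH ((2 : ℚ) • (γ (dst N) - dst N)) ∨ IntH ((2 : ℚ) • (γ (dst N) + dst N))) →
        KIsomorphic N κ M s s') ∧
    (∀ q q' : ℕ, 2 < q → 2 < q' → q.Coprime q' →
      (∃ s, IsPeriod (q * q') s ∧ (∀ x, InNS (q * q') s x ↔ x.2 = 0) ∧
        OnlySigns (q * q') s ∧ InT (q * q') s dl) ∧
      ∀ s, IsPeriod (q * q') s → OnlySigns (q * q') s → InT (q * q') s dl →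
        ∃ s', IsPeriod (q * q') s' ∧ (∃ γ, HodgeIsometry (q * q') s s' γ) ∧
          ∀ (V : Type) [AddCommGroup V] [Module ℚ V] (κ : LV ℚ → LV ℚ → V → V)
            (M : Submodule ℤ V), K3Datum (q * q') κ M → ¬ KIsomorphic (q * q') κ M s s') :=
  ⟨fun _ _ _ _ _ _ _ _ hN hD hψ hg hl => trans_sign hN hD hψ hg hl,
    fun _ _ _ _ _ _ _ _ _ hN hD hs hγ hK k _ ht hk => trans_general hN hD hs hγ hK k ht hk,
    fun _ hN => trans_datum hN,
    fun _ _ hq hq' hc => ⟨trans_period (by positivity),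
      fun _ hs hsig hdl => trans_counter hq hq' hc hs hsig hdl⟩⟩

end Pool.Agent.Results.MP_072fb1_ag.K3nType
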