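import Pool.Agent.H.MP_072fb1_ag.Pol.Main

/-!
Manifolds of K3^[n]-type, `n = N + 1 ≥ 4`: the number of classes with the same `H²`.

The lattices, periods and data are those of `K3nType`: `H² = U₁ ⊕ U₂ ⊕ U₃ ⊕ E₈(-1)² ⊕ ℤδ`,
`(δ, δ) = -2N`, a datum `(V, κ, M)` with `K3Datum N κ M` is what the topological K-theory of such a
manifold carries, and a derived equivalence of manifolds with periods `s`, `s'` gives
`KIsomorphic N κ M s s'` (Taelman, Beckmann).

Let `N = r q₀ ⋯ q_m`, all factors pairwise coprime, `q_i > 2`, and let `s` be a period such that all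
Hodge isometries of the transcendental space are `±1` and some transcendental `t` has `t - 2kδ*`
integral, `k` prime to all `q_i` (for example `δ` transcendental, or `NS = ℚλ`,
`λ = a (e + d f) + b δ`, `a` prime to all `q_i`: the second part). Then there are `2^m` periods Hodge
isometric to `s`, no two of them `KIsomorphic`, for any datum. If `r ≤ 2` and the `q_i` are prime
powers (each `N ≥ 3` is such a product) then, for one datum, each period Hodge isometric to `s` is
`KIsomorphic` to exactly one of them. The last part: for each `m` there are `2^m` projective ones of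
Picard number one with pairwise Hodge isometric `H²`, no two `KIsomorphic`.
-/

namespace Pool.Agent.Results.MP_072fb1_ag.ManyClasses

open Pool.Agent.H.MP_072fb1_ag.K3 Pool.Agent.H.MP_072fb1_ag.K3.Pol

open scoped BigOperators

theorem result :
    (∀ (m r : ℕ) (q : Fin (m + 1) → ℕ), 0 < r → (∀ i, 2 < q i) → (∀ i, r.Coprime (q i)) →
      (∀ i j, i ≠ j → (q i).Coprime (q j)) →
      ∃ (V : Type) (_ : AddCommGroup V) (_ : Module ℚ V) (κ : LV ℚ → LV ℚ → V → V)
        (M : Submodule ℤ V), K3Datum (r * ∏ i, q i) κ M ∧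
        ∀ s, IsPeriod (r * ∏ i, q i) s → OnlySigns (r * ∏ i, q i) s →
          (∃ (k : ℤ) (t : HV ℚ), (∀ i, IsCoprime k (q i : ℤ)) ∧ InT (r * ∏ i, q i) s t ∧
            IntH (t - (2 * (k : ℚ)) • dst (r * ∏ i, q i))) →
          ∃ σ : Finset (Fin m) → HV ℂ,
            (∀ A, IsPeriod (r * ∏ i, q i) (σ A) ∧
              ∃ γ, HodgeIsometry (r * ∏ i, q i) s (σ A) γ) ∧
            (∀ A B, A ≠ B → ∀ (W : Type) [AddCommGroup W] [Module ℚ W]
              (κ' : LV ℚ → LV ℚ → W → W) (M' : Submodule ℤ W),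
              K3Datum (r * ∏ i, q i) κ' M' →
              ¬ KIsomorphic (r * ∏ i, q i) κ' M' (σ A) (σ B)) ∧
            (r ≤ 2 → (∀ i, IsPrimePow (q i)) →
              ∀ s' γ, HodgeIsometry (r * ∏ i, q i) s s' γ →
                ∃! A, KIsomorphic (r * ∏ i, q i) κ M (σ A) s')) ∧
    (∀ (N : ℕ) (a b : ℤ) (d : ℕ), 0 < N → a ≠ 0 → 0 < pH N (lamH a b d) (lamH a b d) →
      (∃ s, IsPeriod N s ∧ (∀ x, InNS N s x ↔ ∃ c : ℚ, x = c • lamH a b d) ∧
        OnlySigns N s) ∧
      ∀ s, (∀ x, InNS N s x ↔ ∃ c : ℚ, x = c • lamH a b d) →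
        ∃ t : HV ℚ, InT N s t ∧ IntH (t - (2 * (a : ℚ)) • dst N)) ∧
    (∀ m : ℕ, ∃ N : ℕ, 0 < N ∧ ∃ σ : Finset (Fin m) → HV ℂ,
      (∀ A, IsPeriod N (σ A) ∧ ∃ l : HV ℚ, 0 < pH N l l ∧
        ∀ x, InNS N (σ A) x ↔ ∃ c : ℚ, x = c • l) ∧
      (∀ A B, ∃ γ, HodgeIsometry N (σ A) (σ B) γ) ∧
      ∀ A B, A ≠ B → ∀ (W : Type) [AddCommGroup W] [Module ℚ W]
        (κ : LV ℚ → LV ℚ → W → W) (M : Submodule ℤ W), K3Datum N κ M →
        ¬ KIsomorphic N κ M (σ A) (σ B)) :=
  ⟨many_classes, fun _ _ _ _ hN ha hl => ⟨pol_exists hN ha hl.ne', fun _ h => pol_glue hN h⟩,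
    many_unbounded⟩

end Pool.Agent.Results.MP_072fb1_ag.ManyClasses
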