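import Pool.Agent.H.MP_072fb1_ag.KP.Main

/-!
Polarized fourfolds of generalised Kummer type.

`X` is deformation equivalent to a generalised Kummer fourfold, `H²(X, ℤ) = V ⊕ ℤδ`, `V = Λ²ℤ⁴`, `δ² = -6`, its period
is a vector `s` of `V_ℂ ⊕ ℂ`. The Picard number is one: `NS(X) ⊗ ℚ = ℚλ`, `λ = a h + b δ`, `h` of type `(1, d)`, and the
only rational Hodge isometries of `λ^⊥` are `±1`. The partner `Y` has the period `dual7 s` (`dualV` on `V`, `-1` on
`δ`), and `H²(X, ℤ)`, `H²(Y, ℤ)` are Hodge isometric. `(S, κ, M)` with `OddKTheory κ M` is what the odd topological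
K-theory of the deformation type carries (see `DualKummerFourfolds`); a derived equivalence of `X` and `Y` would give
`KIsomorphic7 κ M s (dual7 s)` (Taelman). For `3 ∣ d` there is no such isomorphism, whatever the datum; for some
datum and all `a` prime to `3` there is one if and only if `3` does not divide `d` (equivalently, `(λ, λ)`).
-/

namespace Pool.Agent.Results.MP_072fb1_ag.PolarizedKummerType

open Pool.Agent.H.MP_072fb1_ag Pool.Agent.H.MP_072fb1_ag.KP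

theorem result :
    (∀ (a b : ℤ) (d : ℕ), a ≠ 0 → 0 < pair7 (lam a b d) (lam a b d) →
      ∃ s : V7 ℂ, IsPeriod7 s ∧ PicardLine s (lam a b d) ∧ HodgeGeneral s (lam a b d)) ∧
    (∀ (a b : ℤ) (d : ℕ) (s : V7 ℂ), 0 < d → IsPeriod7 s → PicardLine s (lam a b d) →
      HodgeGeneral s (lam a b d) → IsPeriod7 (dual7 s) ∧ HodgeIsometric7 s (dual7 s) ∧
      (3 ∣ d → ∀ (S : Type) [AddCommGroup S] [Module ℚ S] (κ : Ht ℚ → Ht ℚ → S → S)
        (M : Submodule ℤ S), OddKTheory κ M → ¬ KIsomorphic7 κ M s (dual7 s))) ∧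
    (∃ (κ : Ht ℚ → Ht ℚ → Matrix (Fin 4) (Fin 2) ℚ × Matrix (Fin 4) (Fin 2) ℚ →
          Matrix (Fin 4) (Fin 2) ℚ × Matrix (Fin 4) (Fin 2) ℚ)
        (M : Submodule ℤ (Matrix (Fin 4) (Fin 2) ℚ × Matrix (Fin 4) (Fin 2) ℚ)), OddKTheory κ M ∧
      ∀ (a b : ℤ) (d : ℕ) (s : V7 ℂ), 0 < d → ¬ (3 : ℤ) ∣ a → PicardLine s (lam a b d) →
        HodgeGeneral s (lam a b d) → (KIsomorphic7 κ M s (dual7 s) ↔ ¬ 3 ∣ d)) :=
  main

end Pool.Agent.Results.MP_072fb1_ag.PolarizedKummerType
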